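import Pool.Agent.Helper988.AC.Sub

set_option autoImplicit false
open Filter Topology

namespace Pool.Agent.Results.MP_a94db7_an.Cofinite

section Defs

variable {A : Type} [NonUnitalNormedRing A] [NormedSpace ℂ A]

/-- `K` is a closed two-sided ideal. -/
def IsClosedIdeal (K : Submodule ℂ A) : Prop :=
  IsClosed (K : Set A) ∧ (∀ a x : A, x ∈ K → a * x ∈ K) ∧ (∀ a x : A, x ∈ K → x * a ∈ K)

/-- The products of `n + 1` elements of `J`. -/
def Products (J : Submodule ℂ A) : ℕ → Set A
  | 0 => J
  | n + 1 => {x | ∃ a ∈ J, ∃ c ∈ Products J n, x = a * c}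

variable (A)

/-- The closed powers of the closed ideals of finite codimension have zero intersection: for every
`y ≠ 0` there are a closed ideal `J` of finite codimension, a number `n` and a closed ideal `K`
that contains all products of `n + 1` elements of `J` but not `y`. -/
def PowersSeparate : Prop :=
  ∀ y : A, y ≠ 0 → ∃ (J K : Submodule ℂ A) (n : ℕ), IsClosedIdeal J ∧
    FiniteDimensional ℂ (A ⧸ J) ∧ IsClosedIdeal K ∧ (∀ x ∈ Products J n, x ∈ K) ∧ y ∉ K

/-- The closed ideals of finite codimension have zero intersection. -/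
def ResiduallyFinite : Prop :=
  ∀ y : A, y ≠ 0 → ∃ J : Submodule ℂ A, IsClosedIdeal J ∧ FiniteDimensional ℂ (A ⧸ J) ∧ y ∉ J

/-- `A` is semiprime: `a A a = 0` only for `a = 0`. -/
def Semiprime : Prop := ∀ a : A, (∀ x : A, a * x * a = 0) → a = 0

end Defs

lemma prod_eq {A : Type} [NonUnitalNormedRing A] [NormedSpace ℂ A] [IsScalarTower ℂ A A]
    [SMulCommClass ℂ A A] (J : Submodule ℂ A) (n : ℕ) :
    Helper988.AC.PowProd J n = Products J n := by
  induction n with
  | zero => rfl
  | succ n ih =>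
    show {x | ∃ a ∈ J, ∃ c ∈ Helper988.AC.PowProd J n, x = a * c} =
      {x | ∃ a ∈ J, ∃ c ∈ Products J n, x = a * c}
    rw [ih]

lemma convert {A : Type} [NonUnitalNormedRing A] [NormedSpace ℂ A] [IsScalarTower ℂ A A]
    [SMulCommClass ℂ A A] (h : PowersSeparate A) :
    ∀ y : A, y ≠ 0 → ∃ (K J : Submodule ℂ A) (n : ℕ), IsClosed (K : Set A) ∧
      (∀ a x, x ∈ K → a * x ∈ K) ∧ (∀ a x, x ∈ K → x * a ∈ K) ∧
      IsClosed (J : Set A) ∧ FiniteDimensional ℂ (A ⧸ J) ∧
      (∀ a x, x ∈ J → a * x ∈ J) ∧ (∀ a x, x ∈ J → x * a ∈ J) ∧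
      (∀ x ∈ Helper988.AC.PowProd J n, x ∈ K) ∧ y ∉ K := by
  intro y hy
  obtain ⟨J, K, n, hJ, hfin, hK, hJK, hyK⟩ := h y hy
  exact ⟨K, J, n, hK.1, hK.2.1, hK.2.2, hJ.1, hfin, hJ.2.1, hJ.2.2,
    fun x hx => hJK x (by rwa [prod_eq] at hx), hyK⟩

/-- Every homomorphism with dense range from a complex Banach algebra into a semiprime (for example
semisimple) complex Banach algebra `A` is continuous if the closed powers of the closed ideals of
finite codimension of `A` have zero intersection, in particular if these ideals themselves have zero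
intersection. If `A` has this property, then every homomorphism into `A` whose range has semisimple
closure is continuous. -/
theorem result :
    (∀ (B A : Type) [NonUnitalNormedRing B] [NormedSpace ℂ B] [IsScalarTower ℂ B B]
      [SMulCommClass ℂ B B] [CompleteSpace B]
      [NonUnitalNormedRing A] [NormedSpace ℂ A] [IsScalarTower ℂ A A] [SMulCommClass ℂ A A]
      [CompleteSpace A] (θ : B →ₙₐ[ℂ] A),
      DenseRange θ → Semiprime A → PowersSeparate A → Continuous θ) ∧
    (∀ (B A : Type) [NonUnitalNormedRing B] [NormedSpace ℂ B] [IsScalarTower ℂ B B]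
      [SMulCommClass ℂ B B] [CompleteSpace B]
      [NormedRing A] [NormedAlgebra ℂ A] [CompleteSpace A] (θ : B →ₙₐ[ℂ] A),
      (∀ x ∈ closure (Set.range θ),
        (∀ y ∈ closure (Set.range θ), spectralRadius ℂ (y * x) = 0) → x = 0) →
      PowersSeparate A → Continuous θ) ∧
    (∀ (A : Type) [NonUnitalNormedRing A] [NormedSpace ℂ A],
      ResiduallyFinite A → PowersSeparate A) := by
  refine ⟨?_, ?_, ?_⟩
  · intro B A _ _ _ _ _ _ _ _ _ _ θ hd hsp h
    exact Helper988.AC.cofin_cont hsp (convert h) θ hd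
  · intro B A _ _ _ _ _ _ _ _ θ hss h
    refine Helper988.AC.cofin_cont_sub θ ?_ (convert h)
    intro a ha hax
    apply hss a ha
    intro y hy
    have h2 : (y * a) ^ (1 + 1) = 0 := by
      calc (y * a) ^ (1 + 1) = y * (a * y * a) := by
            rw [one_add_one_eq_two, pow_two]; simp only [mul_assoc]
        _ = 0 := by rw [hax y hy, mul_zero]
    have h3 := spectrum.spectralRadius_le_pow_nnnorm_pow_one_div ℂ (y * a) 1
    rw [h2] at h3
    simpa using h3
  · intro A _ _ h y hy
    obtain ⟨J, hJ, hfin, hyJ⟩ := h y hy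
    exact ⟨J, J, 0, hJ, hfin, hJ, fun x hx => hx, hyJ⟩

end Pool.Agent.Results.MP_a94db7_an.Cofinite
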