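import Pool.Agent.Helper988.AC.Mat

set_option autoImplicit false
open Filter Topology

namespace Pool.Agent.Results.MP_a94db7_an.DenseRange

/-- `a 0 * (a 1 * ( ... (a (n-1) * y * c (n-1)) ... ) * c 1) * c 0` -/
def sandwich {A : Type} [Mul A] (a c : ℕ → A) : ℕ → A → A
  | 0, y => y
  | n + 1, y => sandwich a c n (a n * y * c n)

section Defs

variable (A : Type) [NonUnitalNormedRing A] [NormedSpace ℂ A] [IsScalarTower ℂ A A]
  [SMulCommClass ℂ A A]

/-- `A` is semiprime: `a A a = 0` only for `a = 0`. -/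
def Semiprime : Prop := ∀ a : A, (∀ x : A, a * x * a = 0) → a = 0

/-- There are finitely many (possibly no) homomorphisms of `A` onto full matrix algebras such that,
for all sequences `a`, `c` in their common kernel `J`, zero is the only element that lies, for every
`n`, in the closure of `a₀ a₁ ... aₙ₋₁ A cₙ₋₁ ... c₁ c₀`. -/
def SeqNonDivisible : Prop :=
  ∃ (m : ℕ) (d : Fin m → ℕ) (ρ : ∀ i, A →ₙₐ[ℂ] Matrix (Fin (d i)) (Fin (d i)) ℂ),
    (∀ i, Function.Surjective (ρ i)) ∧
    ∀ a c : ℕ → A, (∀ n i, ρ i (a n) = 0) → (∀ n i, ρ i (c n) = 0) →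
      ∀ x : A, (∀ n, x ∈ closure (Set.range (sandwich a c n))) → x = 0

/-- There are finitely many (possibly no) homomorphisms of `A` onto full matrix algebras, with
common kernel `J`, and a sequence of closed subspaces `A = I₀, I₁, I₂, ...` with intersection zero
and `J Iₙ J ⊆ Iₙ₊₁`. -/
def Filtered : Prop :=
  ∃ (m : ℕ) (d : Fin m → ℕ) (ρ : ∀ i, A →ₙₐ[ℂ] Matrix (Fin (d i)) (Fin (d i)) ℂ)
    (I : ℕ → Submodule ℂ A),
    (∀ i, Function.Surjective (ρ i)) ∧ I 0 = ⊤ ∧ (∀ n, IsClosed (I n : Set A)) ∧
    (∀ a c : A, (∀ i, ρ i a = 0) → (∀ i, ρ i c = 0) → ∀ n, ∀ x ∈ I n, a * x * c ∈ I (n + 1)) ∧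
    ∀ x : A, (∀ n, x ∈ I n) → x = 0

end Defs

/-- Every homomorphism with dense range from a complex Banach algebra into a semiprime
(for example semisimple) complex Banach algebra `A` is continuous if `A` is sequentially
non-divisible, in particular if `A` is filtered. -/
theorem result :
    (∀ (B A : Type) [NonUnitalNormedRing B] [NormedSpace ℂ B] [IsScalarTower ℂ B B]
      [SMulCommClass ℂ B B] [CompleteSpace B]
      [NonUnitalNormedRing A] [NormedSpace ℂ A] [IsScalarTower ℂ A A] [SMulCommClass ℂ A A]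
      [CompleteSpace A] (θ : B →ₙₐ[ℂ] A),
      DenseRange θ → Semiprime A → SeqNonDivisible A → Continuous θ) ∧
    (∀ (A : Type) [NonUnitalNormedRing A] [NormedSpace ℂ A] [IsScalarTower ℂ A A]
      [SMulCommClass ℂ A A] [CompleteSpace A], Filtered A → SeqNonDivisible A) ∧
    (∀ (A : Type) [NormedRing A] [NormedAlgebra ℂ A] [CompleteSpace A],
      (∀ x : A, (∀ y : A, spectralRadius ℂ (y * x) = 0) → x = 0) → Semiprime A) := by
  refine ⟨?_, ?_, ?_⟩
  · intro B A _ _ _ _ _ _ _ _ _ _ θ hd hsp hnd
    obtain ⟨m, d, ρ, hρ, h⟩ := hnd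
    refine Helper988.AC.main_dense hsp d ρ hρ (fun a c ha hc x hx => h a c ha hc x (fun n => ?_))
      θ hd
    have heq : ∀ (n : ℕ) (y : A), Helper988.AC.biprod a c n y = sandwich a c n y := by
      intro n
      induction n with
      | zero => intro y; rfl
      | succ n ih => intro y; exact ih _
    have hfun : (fun y => Helper988.AC.biprod a c n y) = sandwich a c n := funext (heq n)
    rw [← hfun]
    exact hx n
  · intro A _ _ _ _ _ hA
    obtain ⟨m, d, ρ, I, hρ, h0, hcl, hmul, hint⟩ := hA
    refine ⟨m, d, ρ, hρ, fun a c ha hc x hx => hint x (fun n => ?_)⟩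
    have hk : ∀ (n k : ℕ) (y : A), y ∈ I k → sandwich a c n y ∈ I (k + n) := by
      intro n
      induction n with
      | zero => intro k y hy; exact hy
      | succ n ih =>
        intro k y hy
        have h1 := ih (k + 1) (a n * y * c n) (hmul _ _ (ha n) (hc n) k y hy)
        have h2 : k + 1 + n = k + (n + 1) := by omega
        rw [h2] at h1
        exact h1
    have hsub : Set.range (sandwich a c n) ⊆ (I n : Set A) := by
      rintro v ⟨y, rfl⟩
      have := hk n 0 y (by rw [h0]; trivial)
      rw [zero_add] at this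
      exact this
    exact closure_minimal hsub (hcl n) (hx n)
  · intro A _ _ _ hss a ha
    apply hss
    intro y
    have h2 : (y * a) ^ 2 = 0 := by
      calc (y * a) ^ 2 = y * (a * y * a) := by rw [pow_two]; simp only [mul_assoc]
        _ = 0 := by rw [ha, mul_zero]
    have h3 := spectrum.spectralRadius_le_pow_nnnorm_pow_one_div ℂ (y * a) 1
    have h4 : (y * a) ^ (1 + 1) = 0 := h2
    rw [h4] at h3
    simpa using h3

end Pool.Agent.Results.MP_a94db7_an.DenseRange
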